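import Pool.Agent.helper13.UN.SpecG

set_option autoImplicit false

open NumberField Complex

namespace Pool.Agent.UN

open scoped nonZeroDivisors

theorem DUA_mem (K : Type) [Field K] [NumberField K] (M : Ideal (𝓞 K)) (hM : M ≠ ⊥) (ξ : K) :
    ξ ∈ Du M ↔ ξ ∈ FractionalIdeal.dual ℤ ℚ (M : FractionalIdeal (𝓞 K)⁰ K) := by
  have hM0 : (M : FractionalIdeal (𝓞 K)⁰ K) ≠ 0 := FractionalIdeal.coeIdeal_ne_zero.2 hM
  rw [FractionalIdeal.mem_dual hM0]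
  constructor
  · intro h a ha
    rw [FractionalIdeal.mem_coeIdeal] at ha
    obtain ⟨x, hx, rfl⟩ := ha
    obtain ⟨k, hk⟩ := h x hx
    refine ⟨k, ?_⟩
    rw [Algebra.traceForm_apply]
    rw [show ξ * algebraMap (𝓞 K) K x = ξ * ((x : 𝓞 K) : K) from rfl, hk]
    simp
  · intro h x hx
    obtain ⟨k, hk⟩ := h ((x : 𝓞 K) : K) ((FractionalIdeal.mem_coeIdeal _).2 ⟨x, hx, rfl⟩)
    refine ⟨k, ?_⟩
    rw [Algebra.traceForm_apply] at hk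
    rw [← hk]
    simp

theorem DUA : DUA_stmt := by
  intro K _ _ M C β hM hC hβ hspan ξ
  rw [DUA_mem K M hM ξ]
  have hM0 : (M : FractionalIdeal (𝓞 K)⁰ K) ≠ 0 := FractionalIdeal.coeIdeal_ne_zero.2 hM
  have hβK : ((β : 𝓞 K) : K) ≠ 0 := by
    intro h
    apply hβ
    exact_mod_cast h
  have h1 : FractionalIdeal.spanSingleton (𝓞 K)⁰ (algebraMap (𝓞 K) K β) =
      (M : FractionalIdeal (𝓞 K)⁰ K) * (C : FractionalIdeal (𝓞 K)⁰ K) *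
        ((differentIdeal ℤ (𝓞 K) : Ideal (𝓞 K)) : FractionalIdeal (𝓞 K)⁰ K) := by
    rw [← FractionalIdeal.coeIdeal_span_singleton, hspan, FractionalIdeal.coeIdeal_mul,
      FractionalIdeal.coeIdeal_mul]
  have h2 : ((differentIdeal ℤ (𝓞 K) : Ideal (𝓞 K)) : FractionalIdeal (𝓞 K)⁰ K) =
      (FractionalIdeal.dual ℤ ℚ (1 : FractionalIdeal (𝓞 K)⁰ K))⁻¹ := coeIdeal_differentIdeal ℤ ℚ K (𝓞 K)
  have h3 : FractionalIdeal.dual ℤ ℚ (M : FractionalIdeal (𝓞 K)⁰ K) =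
      FractionalIdeal.dual ℤ ℚ (1 : FractionalIdeal (𝓞 K)⁰ K) * (M : FractionalIdeal (𝓞 K)⁰ K)⁻¹ :=
    FractionalIdeal.dual_eq_mul_inv ℤ ℚ _
  have h4 : FractionalIdeal.dual ℤ ℚ (1 : FractionalIdeal (𝓞 K)⁰ K) ≠ 0 :=
    FractionalIdeal.dual_ne_zero ℤ ℚ one_ne_zero
  have h5 : FractionalIdeal.spanSingleton (𝓞 K)⁰ (algebraMap (𝓞 K) K β) *
      FractionalIdeal.dual ℤ ℚ (M : FractionalIdeal (𝓞 K)⁰ K) = (C : FractionalIdeal (𝓞 K)⁰ K) := by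
    rw [h1, h2, h3]
    calc (M : FractionalIdeal (𝓞 K)⁰ K) * (C : FractionalIdeal (𝓞 K)⁰ K) *
          (FractionalIdeal.dual ℤ ℚ (1 : FractionalIdeal (𝓞 K)⁰ K))⁻¹ *
          (FractionalIdeal.dual ℤ ℚ (1 : FractionalIdeal (𝓞 K)⁰ K) * (M : FractionalIdeal (𝓞 K)⁰ K)⁻¹)
        = (M : FractionalIdeal (𝓞 K)⁰ K) * (M : FractionalIdeal (𝓞 K)⁰ K)⁻¹ *
          (FractionalIdeal.dual ℤ ℚ (1 : FractionalIdeal (𝓞 K)⁰ K) *
            (FractionalIdeal.dual ℤ ℚ (1 : FractionalIdeal (𝓞 K)⁰ K))⁻¹) *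
          (C : FractionalIdeal (𝓞 K)⁰ K) := by ring
      _ = (C : FractionalIdeal (𝓞 K)⁰ K) := by
          rw [mul_inv_cancel₀ hM0, mul_inv_cancel₀ h4, one_mul, one_mul]
  constructor
  · intro h
    have h6 : algebraMap (𝓞 K) K β * ξ ∈ (C : FractionalIdeal (𝓞 K)⁰ K) := by
      rw [← h5, FractionalIdeal.mem_singleton_mul]
      exact ⟨ξ, h, rfl⟩
    rw [FractionalIdeal.mem_coeIdeal] at h6
    obtain ⟨x, hx, hx'⟩ := h6
    exact ⟨x, hx, by rw [mul_comm]; exact hx'.symm⟩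
  · rintro ⟨x, hx, hx'⟩
    have h6 : algebraMap (𝓞 K) K x ∈ (C : FractionalIdeal (𝓞 K)⁰ K) :=
      (FractionalIdeal.mem_coeIdeal _).2 ⟨x, hx, rfl⟩
    rw [← h5, FractionalIdeal.mem_singleton_mul] at h6
    obtain ⟨y, hy, hy'⟩ := h6
    have h7 : ξ = y := by
      have h8 : ((β : 𝓞 K) : K) * ξ = ((β : 𝓞 K) : K) * y := by
        rw [mul_comm, hx']
        exact hy'
      exact mul_left_cancel₀ hβK h8
    rw [h7]
    exact hy

end Pool.Agent.UN
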