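import Pool.Agent.helper1.UN.SpecU

set_option autoImplicit false

open NumberField Complex MeasureTheory NumberField.Units NumberField.Units.dirichletUnitTheorem

open scoped Classical

namespace Pool.Agent.UN

theorem VFN_aux (K : Type) [Field K] [NumberField K] (F : Set (logSpace K)) (f : logSpace K → ℂ)
    (hF : FD K F) (hf : ∀ v ∈ unitLattice K, ∀ l, f (l + v) = f l)
    (T : logSpace K ≃ᵐ logSpace K) (hT : MeasurePreserving T volume volume)
    (e : unitLattice K ≃ unitLattice K)
    (he : ∀ (g : unitLattice K) (l : logSpace K), T ((e g : logSpace K) + l) = (g : logSpace K) + T l) :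
    ∫ l in F, f (T l) = ∫ l in F, f l := by
  have h1 : ∫ y in T '' F, f y = ∫ x in F, f (T x) :=
    hT.setIntegral_image_emb T.measurableEmbedding f F
  rw [← h1]
  have h2 : IsAddFundamentalDomain (unitLattice K) (T.toEquiv '' F) (volume : Measure (logSpace K)) := by
    apply hF.dom.image_of_equiv T.toEquiv (hT.symm T).quasiMeasurePreserving e
    intro g l
    exact he g l
  have h3 : Countable (unitLattice K) := by infer_instance
  have h4 : VAddInvariantMeasure (unitLattice K) (logSpace K) (volume : Measure (logSpace K)) :=
    ⟨fun c s _ => by
      show volume ((fun x => (c : logSpace K) + x) ⁻¹' s) = volume s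
      exact measure_preimage_add volume (c : logSpace K) s⟩
  exact h2.setIntegral_eq hF.dom (fun g x => by
    rw [show (g +ᵥ x : logSpace K) = x + (g : logSpace K) from add_comm _ _]
    exact hf g g.2 x)

theorem VFN : VFN_stmt := by
  intro K _ _ F f s hF hf
  constructor
  · refine VFN_aux K F f hF hf ((MeasurableEquiv.addRight s).trans (MeasurableEquiv.neg (logSpace K))) ?_
      (Equiv.neg _) ?_
    · exact (Measure.measurePreserving_neg (volume : Measure (logSpace K))).comp
        (measurePreserving_add_right (volume : Measure (logSpace K)) s)
    · intro g l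
      simp
      abel
  · refine VFN_aux K F f hF hf (MeasurableEquiv.addRight s) ?_ (Equiv.refl _) ?_
    · exact measurePreserving_add_right (volume : Measure (logSpace K)) s
    · intro g l
      simp
      abel

end Pool.Agent.UN
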